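import Pool.Agent.W785.EN.Stms

/-!
# The system of the travelling drop: existence and Lipschitz dependence (helper554, EN-FLOW)
-/

set_option autoImplicit false

open Set Filter Topology Metric
open scoped ContDiff NNReal

namespace Pool.Agent.W554.EN

open Pool.Agent.W785.EN

/-- the space of the system -/
abbrev E6 : Type := Fin 6 → ℝ

/-- the vector field -/
noncomputable def G (c : ℝ) (v : E6) : E6 :=
  ![v 1, -(v 3 * Real.sin (v 0) + v 2 * Real.cos (v 0)) / 2, c * Real.cos (v 0) ^ 2,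
    c * (Real.sin (v 0) * Real.cos (v 0)), Real.cos (v 0), Real.sin (v 0)]

lemma G_contDiff (c : ℝ) : ContDiff ℝ 1 (G c) := by
  rw [contDiff_pi]
  intro i
  match i with
  | 0 => change ContDiff ℝ 1 fun v : E6 => v 1; fun_prop
  | 1 =>
    change ContDiff ℝ 1 fun v : E6 => -(v 3 * Real.sin (v 0) + v 2 * Real.cos (v 0)) / 2
    fun_prop
  | 2 => change ContDiff ℝ 1 fun v : E6 => c * Real.cos (v 0) ^ 2; fun_prop
  | 3 => change ContDiff ℝ 1 fun v : E6 => c * (Real.sin (v 0) * Real.cos (v 0)); fun_prop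
  | 4 => change ContDiff ℝ 1 fun v : E6 => Real.cos (v 0); fun_prop
  | 5 => change ContDiff ℝ 1 fun v : E6 => Real.sin (v 0); fun_prop

/-- truncation -/
noncomputable def cl (R t : ℝ) : ℝ := max (-R) (min R t)

lemma abs_cl_le {R : ℝ} (hR : 0 ≤ R) (t : ℝ) : |cl R t| ≤ R := by
  unfold cl
  rw [abs_le]
  exact ⟨le_max_left _ _, max_le (by linarith) (min_le_left _ _)⟩

lemma cl_eq {R t : ℝ} (h : |t| ≤ R) : cl R t = t := by
  unfold cl
  rw [abs_le] at h
  rw [min_eq_right h.2, max_eq_right h.1]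

lemma abs_cl_le' {R : ℝ} (hR : 0 ≤ R) (t : ℝ) : |cl R t| ≤ |t| := by
  rcases le_total (|t|) R with h | h
  · rw [cl_eq h]
  · exact (abs_cl_le hR t).trans h

lemma cl_lip (R s t : ℝ) : |cl R s - cl R t| ≤ |s - t| := by
  unfold cl
  calc |max (-R) (min R s) - max (-R) (min R t)| ≤ |min R s - min R t| := by
        have := abs_max_sub_max_le_max (-R) (min R s) (-R) (min R t)
        simpa using this
    _ ≤ |s - t| := by
        have := abs_min_sub_min_le_max R s R t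
        simpa using this

/-- truncation of vectors -/
noncomputable def Cl (R : ℝ) (v : E6) : E6 := fun i => cl R (v i)

lemma Cl_mem {R : ℝ} (hR : 0 ≤ R) (v : E6) : Cl R v ∈ closedBall (0 : E6) R := by
  rw [mem_closedBall_zero_iff, pi_norm_le_iff_of_nonneg hR]
  intro i
  rw [Real.norm_eq_abs]
  exact abs_cl_le hR _

lemma Cl_lip (R : ℝ) : LipschitzWith 1 (Cl R) := by
  refine LipschitzWith.of_dist_le_mul fun v w => ?_
  rw [NNReal.coe_one, one_mul, dist_pi_le_iff dist_nonneg]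
  intro i
  rw [Real.dist_eq]
  refine (cl_lip R (v i) (w i)).trans ?_
  rw [← Real.dist_eq]
  exact dist_le_pi_dist v w i

lemma G_Cl {c R : ℝ} {v : E6} (h0 : |v 0| ≤ R) (h1 : |v 1| ≤ R) (h2 : |v 2| ≤ R)
    (h3 : |v 3| ≤ R) : G c (Cl R v) = G c v := by
  unfold G Cl
  rw [cl_eq h0, cl_eq h1, cl_eq h2, cl_eq h3]

lemma bnd {g g' : ℝ → ℝ} {T C : ℝ} (hC : 0 ≤ C)
    (h : ∀ t ∈ Icc (-T) T, HasDerivWithinAt g (g' t) (Icc (-T) T) t)
    (hb : ∀ t ∈ Icc (-T) T, |g' t| ≤ C) {t : ℝ} (ht : t ∈ Icc (-T) T) :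
    |g t| ≤ |g 0| + C * T := by
  have hT : 0 ≤ T := by linarith [ht.1, ht.2]
  have h0 : (0 : ℝ) ∈ Icc (-T) T := ⟨by linarith, hT⟩
  have h1 := Convex.norm_image_sub_le_of_norm_hasDerivWithin_le h
    (fun x hx => (Real.norm_eq_abs (g' x)).trans_le (hb x hx)) (convex_Icc _ _) h0 ht
  rw [Real.norm_eq_abs, Real.norm_eq_abs, sub_zero] at h1
  have h2 : |t| ≤ T := abs_le.2 ht
  have h3 : |g t| ≤ |g t - g 0| + |g 0| := by
    have := abs_add_le (g t - g 0) (g 0)
    rwa [sub_add_cancel] at this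
  have h4 : C * |t| ≤ C * T := mul_le_mul_of_nonneg_left h2 hC
  linarith

/-- the initial values -/
def ini (μ : ℝ) : E6 := ![0, 1, 0, 1 - μ, 0, 0]

lemma ini_dist (μ μ' : ℝ) : dist (ini μ) (ini μ') ≤ |μ - μ'| := by
  rw [dist_pi_le_iff (abs_nonneg _)]
  intro i
  match i with
  | 0 => simp [ini]
  | 1 => simp [ini]
  | 2 => simp [ini]
  | 3 =>
    change dist (1 - μ) (1 - μ') ≤ _
    rw [Real.dist_eq, abs_sub_comm]
    refine le_of_eq (congrArg _ ?_)
    ring
  | 4 => simp [ini]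
  | 5 => simp [ini]

theorem main : S_flow := by
  intro c S hc hS hcS
  set T : ℝ := 2 * S with hT
  have hT0 : 0 < T := by positivity
  have hcT : c * T ≤ 1 := by rw [hT]; linarith
  set R : ℝ := (1 + 2 * T) * (1 + T) + 2 with hR
  have hR0 : 0 ≤ R := by positivity
  have hR1 : 2 ≤ R := by rw [hR]; nlinarith
  have hR2 : 1 + 2 * T ≤ R := by rw [hR]; nlinarith
  have hR3 : (1 + 2 * T) * T ≤ R := by rw [hR]; nlinarith
  have hK : IsCompact (closedBall (0 : E6) R) := isCompact_closedBall _ _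
  obtain ⟨K, hKl⟩ := (G_contDiff c).contDiffOn.exists_lipschitzOnWith one_ne_zero
    (convex_closedBall (0 : E6) R) hK
  obtain ⟨L0, hL0⟩ := hK.exists_bound_of_continuousOn (G_contDiff c).continuous.continuousOn
  have hL0n : 0 ≤ L0 := (norm_nonneg _).trans (hL0 0 (mem_closedBall_self hR0))
  set F : E6 → E6 := fun v => G c (Cl R v) with hF
  have hFl : LipschitzWith (K * 1) F := by
    have h1 : LipschitzOnWith (K * 1) F univ :=
      hKl.comp (Cl_lip R).lipschitzOnWith fun v _ => Cl_mem hR0 v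
    exact lipschitzOnWith_univ.1 h1
  have hFb : ∀ v, ‖F v‖ ≤ L0 := fun v => hL0 _ (Cl_mem hR0 v)
  have h0mem : (0 : ℝ) ∈ Icc (-T) T := ⟨by linarith, hT0.le⟩
  have hPL : IsPicardLindelof (fun _ => F) (tmin := -T) (tmax := T) ⟨0, h0mem⟩ (ini 0)
      (⟨L0 * T + 1, by positivity⟩ : ℝ≥0) 1 ⟨L0, hL0n⟩ (K * 1) := by
    refine IsPicardLindelof.of_time_independent (fun v _ => hFb v) hFl.lipschitzOnWith ?_
    change L0 * max (T - 0) (0 - -T) ≤ (L0 * T + 1) - ((1 : ℝ≥0) : ℝ)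
    rw [sub_zero, zero_sub, neg_neg, max_self, NNReal.coe_one]
    linarith
  obtain ⟨α, hα, L', hL'⟩ :=
    hPL.exists_forall_mem_closedBall_eq_hasDerivWithinAt_lipschitzOnWith
  have hini : ∀ μ ∈ Icc (0 : ℝ) 1, ini μ ∈ closedBall (ini 0) ((1 : ℝ≥0) : ℝ) := by
    intro μ hμ
    rw [mem_closedBall, NNReal.coe_one]
    refine (ini_dist μ 0).trans ?_
    rw [sub_zero, abs_of_nonneg hμ.1]
    exact hμ.2
  -- bounds
  have hsol : ∀ μ ∈ Icc (0 : ℝ) 1, ∀ t ∈ Icc (-T) T,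
      HasDerivWithinAt (α (ini μ)) (G c (α (ini μ) t)) (Icc (-T) T) t := by
    intro μ hμ t ht
    obtain ⟨hα0, hαd⟩ := hα (ini μ) (hini μ hμ)
    have hα0' : α (ini μ) 0 = ini μ := hα0
    have hcomp : ∀ i : Fin 6, ∀ t ∈ Icc (-T) T, HasDerivWithinAt (fun s => α (ini μ) s i)
        (F (α (ini μ) t) i) (Icc (-T) T) t := fun i t ht =>
      (hasDerivWithinAt_pi.1 (hαd t ht)) i
    have hsin : ∀ x : ℝ, |Real.sin x| ≤ 1 := Real.abs_sin_le_one
    have hcos : ∀ x : ℝ, |Real.cos x| ≤ 1 := Real.abs_cos_le_one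
    have hW : ∀ t ∈ Icc (-T) T, |α (ini μ) t 2| ≤ 1 := by
      intro t ht
      have h1 := bnd hc (hcomp 2) (fun s _ => by
        change |c * Real.cos (Cl R (α (ini μ) s) 0) ^ 2| ≤ c
        rw [abs_mul, abs_of_nonneg hc, abs_pow]
        have := pow_le_one₀ (n := 2) (abs_nonneg _) (hcos (Cl R (α (ini μ) s) 0))
        nlinarith) ht
      rw [hα0'] at h1
      have h2 : |ini μ 2| = 0 := by simp [ini]
      rw [h2] at h1
      linarith
    have hZ : ∀ t ∈ Icc (-T) T, |α (ini μ) t 3| ≤ 2 := by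
      intro t ht
      have h1 := bnd hc (hcomp 3) (fun s _ => by
        change |c * (Real.sin (Cl R (α (ini μ) s) 0) * Real.cos (Cl R (α (ini μ) s) 0))| ≤ c
        rw [abs_mul, abs_of_nonneg hc, abs_mul]
        have h5 := hsin (Cl R (α (ini μ) s) 0)
        have h6 := hcos (Cl R (α (ini μ) s) 0)
        have h7 := mul_le_one₀ h5 (abs_nonneg _) h6
        nlinarith) ht
      rw [hα0'] at h1
      have h2 : |ini μ 3| ≤ 1 := by
        change |1 - μ| ≤ 1
        rw [abs_le]; constructor <;> linarith [hμ.1, hμ.2]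
      linarith
    have hk : ∀ t ∈ Icc (-T) T, |α (ini μ) t 1| ≤ 1 + 2 * T := by
      intro t ht
      have h1 := bnd (C := 2) (by norm_num) (hcomp 1) (fun s hs => by
        change |-(Cl R (α (ini μ) s) 3 * Real.sin (Cl R (α (ini μ) s) 0) +
          Cl R (α (ini μ) s) 2 * Real.cos (Cl R (α (ini μ) s) 0)) / 2| ≤ 2
        have a1 : |Cl R (α (ini μ) s) 3| ≤ 2 := (abs_cl_le' hR0 _).trans (hZ s hs)
        have a2 : |Cl R (α (ini μ) s) 2| ≤ 1 := (abs_cl_le' hR0 _).trans (hW s hs)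
        have a3 : |Cl R (α (ini μ) s) 3 * Real.sin (Cl R (α (ini μ) s) 0)| ≤ 2 := by
          rw [abs_mul]
          calc _ ≤ 2 * 1 := mul_le_mul a1 (hsin _) (abs_nonneg _) (by norm_num)
            _ = 2 := by norm_num
        have a4 : |Cl R (α (ini μ) s) 2 * Real.cos (Cl R (α (ini μ) s) 0)| ≤ 1 := by
          rw [abs_mul]
          calc _ ≤ 1 * 1 := mul_le_mul a2 (hcos _) (abs_nonneg _) (by norm_num)
            _ = 1 := by norm_num
        rw [abs_div, abs_neg, abs_of_pos (by norm_num : (0 : ℝ) < 2)]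
        have a5 := abs_add_le (Cl R (α (ini μ) s) 3 * Real.sin (Cl R (α (ini μ) s) 0))
          (Cl R (α (ini μ) s) 2 * Real.cos (Cl R (α (ini μ) s) 0))
        linarith) ht
      rw [hα0'] at h1
      have h2 : |ini μ 1| = 1 := by simp [ini]
      rw [h2] at h1
      exact h1
    have hφ : ∀ t ∈ Icc (-T) T, |α (ini μ) t 0| ≤ (1 + 2 * T) * T := by
      intro t ht
      have h1 := bnd (C := 1 + 2 * T) (by positivity) (hcomp 0) (fun s hs => by
        change |Cl R (α (ini μ) s) 1| ≤ _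
        exact (abs_cl_le' hR0 _).trans (hk s hs)) ht
      rw [hα0'] at h1
      have h2 : |ini μ 0| = 0 := by simp [ini]
      rw [h2, zero_add] at h1
      exact h1
    have e : F (α (ini μ) t) = G c (α (ini μ) t) :=
      G_Cl ((hφ t ht).trans hR3) ((hk t ht).trans hR2) ((hW t ht).trans (by linarith))
        ((hZ t ht).trans hR1)
    have h9 := hαd t ht
    change HasDerivWithinAt (α (ini μ)) (F (α (ini μ) t)) (Icc (-T) T) t at h9
    rwa [e] at h9
  have hder : ∀ μ ∈ Icc (0 : ℝ) 1, ∀ s, |s| ≤ S → ∀ i : Fin 6,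
      HasDerivAt (fun s => α (ini μ) s i) (G c (α (ini μ) s) i) s := by
    intro μ hμ s hs i
    rw [abs_le] at hs
    have h1 : s ∈ Icc (-T) T := ⟨by linarith [hs.1], by linarith [hs.2]⟩
    have h2 := (hasDerivWithinAt_pi.1 (hsol μ hμ s h1)) i
    exact h2.hasDerivAt (Icc_mem_nhds (by linarith [hs.1]) (by linarith [hs.2]))
  have h0 : ∀ μ ∈ Icc (0 : ℝ) 1, α (ini μ) 0 = ini μ := fun μ hμ => (hα (ini μ) (hini μ hμ)).1
  refine ⟨fun μ s => α (ini μ) s 0, fun μ s => α (ini μ) s 1, fun μ s => α (ini μ) s 2,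
    fun μ s => α (ini μ) s 3, fun μ s => α (ini μ) s 4, fun μ s => α (ini μ) s 5, ?_, ?_⟩
  · intro μ hμ
    refine ⟨?_, ?_, ?_, ?_, ?_, ?_, ?_, ?_, ?_, ?_, ?_, ?_⟩
    · change α (ini μ) 0 0 = 0; rw [h0 μ hμ]; rfl
    · change α (ini μ) 0 1 = 1; rw [h0 μ hμ]; rfl
    · change α (ini μ) 0 2 = 0; rw [h0 μ hμ]; rfl
    · change α (ini μ) 0 3 = 1 - μ; rw [h0 μ hμ]; rfl
    · change α (ini μ) 0 4 = 0; rw [h0 μ hμ]; rfl
    · change α (ini μ) 0 5 = 0; rw [h0 μ hμ]; rfl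
    · exact fun s hs => hder μ hμ s hs 0
    · exact fun s hs => hder μ hμ s hs 1
    · exact fun s hs => hder μ hμ s hs 2
    · exact fun s hs => hder μ hμ s hs 3
    · exact fun s hs => hder μ hμ s hs 4
    · exact fun s hs => hder μ hμ s hs 5
  · refine ⟨L', L'.2, fun μ hμ μ' hμ' s hs => ?_⟩
    rw [abs_le] at hs
    have h1 : s ∈ Icc (-T) T := ⟨by linarith [hs.1], by linarith [hs.2]⟩
    have h2 : dist (α (ini μ) s) (α (ini μ') s) ≤ L' * |μ - μ'| :=
      ((hL' s h1).dist_le_mul _ (hini μ hμ) _ (hini μ' hμ')).trans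
        (mul_le_mul_of_nonneg_left (ini_dist μ μ') L'.2)
    constructor
    · rw [← Real.dist_eq]
      exact (dist_le_pi_dist (α (ini μ) s) (α (ini μ') s) 1).trans h2
    · rw [← Real.dist_eq]
      exact (dist_le_pi_dist (α (ini μ) s) (α (ini μ') s) 4).trans h2

end Pool.Agent.W554.EN
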